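import Mathlib
import Pool.Agent.Y796.BU.B

set_option autoImplicit false

/-!
# The Burillo property, and undistorted diagram subgroups

Conventions (definitions in `Pool.Agent.H599R3`).

* A semigroup presentation is a set `R` of pairs `(u, v)` of words over `A` (relations `u = v`),
  both sides nonempty.
* `St A`: elementary rewritings `(x, (u, v), y, b)`, that is diagrams with exactly one cell:
  `x u y` becomes `x v y` if `b = true`, and `x v y` becomes `x u y` if `b = false`;
  `src`, `tgt` are the top and the bottom label, `bar` is the inverse (mirror image), `rv` the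
  mirror image of a list, and `ctx p q` adds the words `p` and `q` on the left and on the right.
* `Walk R a b l`: the list `l` of elementary rewritings leads from the word `a` to the word `b`;
  it describes an `(a, b)`-diagram over `R` whose cells are the members of `l`.
* `Flip`: two consecutive rewritings of disjoint subwords are exchanged;  `Same` is the generated
  equivalence relation: both lists describe the same planar diagram up to isotopy.
* `HasDipole`: a cell directly followed by its inverse;  `Reduced`: no list describing the same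
  diagram has a dipole.
* `D R w` is the diagram group: closed walks at `w` modulo exchanging independent rewritings and
  inserting or deleting dipoles (the fundamental group of the Squier complex at `w`);
  `cls R w l` is the element represented by the diagram `l`.
* `wordLength S g` is the word length of `g` with respect to `S`.
* `numCells g`: the number of cells of the reduced diagram representing `g`;
  `BurilloProperty R w`: for every finite generating set of `D R w` word length and diagram length
  are bi-Lipschitz equivalent (`Pool/Agent/Y796/BU/A.lean`).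
-/

namespace Pool.Agent.Results.MP_5cc51b_al.BurilloUndistorted

open Pool.Agent.H599R3 Pool.Agent.Y796.BU

/-- `φ` is bi-Lipschitz for the word lengths given by arbitrary finite generating sets. -/
def BiLipschitz {G H : Type} [Group G] [Group H] (φ : G →* H) : Prop :=
  ∀ (S : Set G) (T : Set H), S.Finite → T.Finite →
    Subgroup.closure S = ⊤ → Subgroup.closure T = ⊤ → ∃ C : ℝ, 1 ≤ C ∧ ∀ g : G,
      C⁻¹ * (wordLength S g : ℝ) ≤ (wordLength T (φ g) : ℝ) ∧
      (wordLength T (φ g) : ℝ) ≤ C * (wordLength S g : ℝ)

theorem wordLength_pos {G : Type} [Group G] {S : Set G} (hS : Subgroup.closure S = ⊤) {g : G}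
    (hg : g ≠ 1) : 1 ≤ wordLength S g := by
  obtain ⟨l, -, l2, l3⟩ := exists_word hS g
  rw [← l3]
  rcases l with _ | ⟨x, l⟩
  · exact absurd (by simpa using l2.symm) hg
  · simp

theorem lipschitz {G H : Type} [Group G] [Group H] (φ : G →* H) {S : Set G} {T : Set H}
    (hfin : S.Finite) (hS : Subgroup.closure S = ⊤) (hT : Subgroup.closure T = ⊤) :
    ∃ M : ℕ, ∀ g, wordLength T (φ g) ≤ M * wordLength S g := by
  obtain ⟨M, hM⟩ := (hfin.image (fun s : G => wordLength T (φ s))).bddAbove
  refine ⟨M, fun g => ?_⟩
  obtain ⟨l, l1, l2, l3⟩ := exists_word hS g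
  rw [← l3, ← l2]
  clear l2 l3
  induction l with
  | nil => simp [wordLength_one]
  | cons x l ih =>
    have h1 := ih (fun y hy => l1 y (List.mem_cons_of_mem _ hy))
    have h2 : wordLength T (φ x) ≤ M := by
      rcases l1 x (by simp) with h | h
      · exact hM ⟨x, h, rfl⟩
      · have h3 : wordLength T (φ x⁻¹) ≤ M := hM ⟨x⁻¹, h, rfl⟩
        rwa [map_inv, wordLength_inv hT] at h3
    rw [List.prod_cons, map_mul, List.length_cons, Nat.mul_succ]
    have := wordLength_mul hT (φ x) (φ l.prod)
    omega

/-- **Main theorem.** Let `R` be a semigroup presentation (with nonempty sides) and `w` a word.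

(1) If the diagram group `D(R, w)` is finitely generated then it has the Burillo property.

(2) Let `R'` be a subset of `R`, let `p, w', q` be words and let `δ` be a diagram over `R` from `w` to
`p w' q`. Then there is a homomorphism `D(R', w') → D(R, w)` which maps the class of a diagram
`l` to the class of `δ (p + l + q) δ⁻¹`; it is injective, changes the diagram length by at most twice
the number of cells of `δ`, and if the two groups are finitely generated it is bi-Lipschitz for the
word lengths given by arbitrary finite generating sets: the diagram subgroup `D(R', w')` of `D(R, w)`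
is undistorted. -/
theorem result {A : Type} (R : Set (List A × List A)) (hR : ∀ r ∈ R, r.1 ≠ [] ∧ r.2 ≠ [])
    (w : List A) :
    (Group.FG (D R w) → BurilloProperty R w) ∧
    ∀ R' : Set (List A × List A), R' ⊆ R → ∀ (p w' q : List A) (δ : List (St A)),
      Walk R w (p ++ w' ++ q) δ →
      ∃ φ : D R' w' →* D R w,
        (∀ l, Walk R' w' w' l → φ (cls R' w' l) = cls R w (δ ++ l.map (ctx p q) ++ rv δ)) ∧
        Function.Injective φ ∧
        (∀ g, numCells (φ g) ≤ numCells g + 2 * δ.length ∧
          numCells g ≤ numCells (φ g) + 2 * δ.length) ∧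
        (Group.FG (D R' w') → Group.FG (D R w) → BiLipschitz φ) := by
  refine ⟨fun h => burillo R hR w h, ?_⟩
  intro R' h p w' q δ hδ
  have hR' : ∀ r ∈ R', r.1 ≠ [] ∧ r.2 ≠ [] := fun r hr => hR r (h hr)
  let φ : D R' w' →* D R w := (tr δ hδ).comp (emb h p q w')
  have hφ : ∀ g, φ g = tr δ hδ (emb h p q w' g) := fun _ => rfl
  have hinj : Function.Injective φ := by
    rw [injective_iff_map_eq_one]
    intro g hg
    apply eq_one_of_numCells hR'
    rw [← numCells_emb hR h p q w' g]
    have h1 : emb h p q w' g = 1 := by
      have h2 := tr_tr δ hδ (emb h p q w' g)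
      rw [← hφ, hg, map_one] at h2
      exact h2.symm
    rw [h1, numCells_one hR]
  have hnum : ∀ g, numCells (φ g) ≤ numCells g + 2 * δ.length ∧
      numCells g ≤ numCells (φ g) + 2 * δ.length := by
    intro g
    have h1 := numCells_tr hR δ hδ (emb h p q w' g)
    have h2 := numCells_tr' hR δ hδ (emb h p q w' g)
    rw [numCells_emb hR h p q w' g] at h1 h2
    exact ⟨h1, h2⟩
  refine ⟨φ, ?_, hinj, hnum, ?_⟩
  · intro l hl
    rw [hφ, emb_cls h p q w' hl, tr_cls δ hδ (walk_mono h (hl.ctx p q))]
  · intro hfg' hfg S T hSf hTf hS hT
    obtain ⟨C1, hC1, h1⟩ := burillo R' hR' w' hfg' S hSf hS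
    obtain ⟨C2, hC2, h2⟩ := burillo R hR w hfg T hTf hT
    obtain ⟨M, hM⟩ := lipschitz φ hSf hS hT
    set C : ℝ := C1 * (C2 + 2 * (δ.length : ℝ)) + M with hC
    have hδ0 : (0 : ℝ) ≤ 2 * (δ.length : ℝ) := by positivity
    have hM0 : (0 : ℝ) ≤ M := Nat.cast_nonneg M
    have hC1' : (1 : ℝ) ≤ C1 * (C2 + 2 * (δ.length : ℝ)) := by nlinarith
    have hC' : (1 : ℝ) ≤ C := by linarith
    refine ⟨C, hC', fun g => ?_⟩
    by_cases hg : g = 1
    · rw [hg, map_one, wordLength_one, wordLength_one]
      simp
    have hφg : φ g ≠ 1 := fun h3 => hg (hinj (by rw [h3, map_one]))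
    have hpos : (1 : ℝ) ≤ (wordLength T (φ g) : ℝ) := by exact_mod_cast wordLength_pos hT hφg
    have hpos' : (0 : ℝ) ≤ (wordLength S g : ℝ) := Nat.cast_nonneg _
    constructor
    · rw [inv_mul_le_iff₀ (by linarith)]
      have a1 := (h1 g).1
      rw [inv_mul_le_iff₀ (by linarith)] at a1
      have a2 : (numCells g : ℝ) ≤ (numCells (φ g) : ℝ) + 2 * (δ.length : ℝ) := by
        exact_mod_cast (hnum g).2
      have a3 := (h2 (φ g)).2
      have a4 : (numCells g : ℝ) ≤ (C2 + 2 * (δ.length : ℝ)) * (wordLength T (φ g) : ℝ) := by
        nlinarith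
      calc (wordLength S g : ℝ) ≤ C1 * (numCells g : ℝ) := a1
        _ ≤ C1 * ((C2 + 2 * (δ.length : ℝ)) * (wordLength T (φ g) : ℝ)) := by
            apply mul_le_mul_of_nonneg_left a4 (by linarith)
        _ = (C1 * (C2 + 2 * (δ.length : ℝ))) * (wordLength T (φ g) : ℝ) := by ring
        _ ≤ C * (wordLength T (φ g) : ℝ) := by
            apply mul_le_mul_of_nonneg_right (by linarith) (by linarith)
    · have a1 : (wordLength T (φ g) : ℝ) ≤ M * (wordLength S g : ℝ) := by exact_mod_cast hM g
      exact a1.trans (mul_le_mul_of_nonneg_right (by linarith) hpos')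

end Pool.Agent.Results.MP_5cc51b_al.BurilloUndistorted
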