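import Pool.Agent.Y72.Bur.Main

set_option autoImplicit false

namespace Pool.Agent.Results.MP_5cc51b_al.RetractsBurillo

open Pool.Agent.H599R3 Pool.Agent.Results.MP_5cc51b_al.BurilloAll Pool.Agent.Y72.Bur

/-- Let `G = D R w` be an arbitrary diagram group (not necessarily finitely generated), and let
`numCells g` be the number of cells of the reduced diagram of `g`.

(1) Every finitely generated retract `H` of `G` has the Burillo property: for every finite
generating set `T` of `H` the word length is bi-Lipschitz equivalent to the number of cells. (`i` is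
the inclusion and `r` the retraction. For `H = G` this is the Burillo property of all finitely
generated diagram groups, stated in (3).)

(2) For every length function `L` on `G` (for instance `L g = |φ g|` with a homomorphism `φ` to a
group with a word length, with respect to a possibly infinite generating set) and every finitely
generated subgroup `⟨S⟩` of `G` there is `C` with `L g ≤ C * numCells g` on `⟨S⟩`.

(3) If `G` is finitely generated then it has the Burillo property. -/
theorem result {A : Type} (R : Set (List A × List A)) (hR : ∀ r ∈ R, r.1 ≠ [] ∧ r.2 ≠ [])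
    (w : List A) :
    (∀ (H : Type) [Group H] (i : H →* D R w) (r : D R w →* H), (∀ h, r (i h) = h) →
      ∀ T : Set H, T.Finite → Subgroup.closure T = ⊤ →
        ∃ C : ℝ, 1 ≤ C ∧ ∀ h : H,
          C⁻¹ * (wordLength T h : ℝ) ≤ (numCells (i h) : ℝ) ∧
            (numCells (i h) : ℝ) ≤ C * (wordLength T h : ℝ)) ∧
    (∀ L : D R w → ℕ, L 1 = 0 → (∀ g h, L (g * h) ≤ L g + L h) → (∀ g, L g⁻¹ = L g) →
      ∀ S : Set (D R w), S.Finite →
        ∃ C : ℕ, ∀ g ∈ Subgroup.closure S, L g ≤ C * numCells g) ∧
    (Group.FG (D R w) → BurilloProperty R w) := by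
  have h1 : ∀ (H : Type) [Group H] (i : H →* D R w) (r : D R w →* H), (∀ h, r (i h) = h) →
      ∀ T : Set H, T.Finite → Subgroup.closure T = ⊤ →
        ∃ C : ℝ, 1 ≤ C ∧ ∀ h : H,
          C⁻¹ * (wordLength T h : ℝ) ≤ (numCells (i h) : ℝ) ∧
            (numCells (i h) : ℝ) ≤ C * (wordLength T h : ℝ) := by
    intro H _ i r hri T hT hT'
    obtain ⟨C0, hC0⟩ := lengths hR (S := i '' T) (hT.image _) (L := fun g => wordLength T (r g))
      (by simp only [map_one]; exact wordLength_one)
      (fun g h => by simp only [map_mul]; exact wordLength_mul hT' _ _)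
      (fun g => by simp only [map_inv]; exact wordLength_inv hT' _)
    obtain ⟨M, hM⟩ := upper hR i hT hT'
    have hi : ∀ h : H, i h ∈ Subgroup.closure (i '' T) := by
      intro h
      rw [← MonoidHom.map_closure, hT']
      exact ⟨h, Subgroup.mem_top h, rfl⟩
    have main : ∀ h : H, wordLength T h ≤ C0 * numCells (i h) := by
      intro h
      have := hC0 (i h) (hi h)
      simp only [hri] at this
      exact this
    refine ⟨((max 1 (max C0 M) : ℕ) : ℝ), by exact_mod_cast le_max_left _ _, fun g => ⟨?_, ?_⟩⟩
    · have hpos : (0 : ℝ) < ((max 1 (max C0 M) : ℕ) : ℝ) := by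
        have : 1 ≤ max 1 (max C0 M) := le_max_left _ _
        exact_mod_cast this
      rw [inv_mul_le_iff₀ hpos]
      have h1 : wordLength T g ≤ max 1 (max C0 M) * numCells (i g) :=
        (main g).trans (Nat.mul_le_mul_right _ ((le_max_left _ _).trans (le_max_right _ _)))
      exact_mod_cast h1
    · have h1 : numCells (i g) ≤ max 1 (max C0 M) * wordLength T g :=
        (hM g).trans (Nat.mul_le_mul_right _ ((le_max_right _ _).trans (le_max_right _ _)))
      exact_mod_cast h1
  refine ⟨h1, ?_, ?_⟩
  · intro L L1 Lm Li S hS
    exact lengths hR hS L1 Lm Li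
  · intro _ S hfin hS
    exact h1 (D R w) (MonoidHom.id _) (MonoidHom.id _) (fun _ => rfl) S hfin hS

end Pool.Agent.Results.MP_5cc51b_al.RetractsBurillo
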